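import Pool.Agent.H53.RM.R1_Transport

/-!
One radial mean body does not determine an origin-symmetric convex body: in the plane, for every
`p` in an interval `(p0, 2)` there are two distinct origin-symmetric convex bodies with the same
radial `p`-th mean body.
-/

namespace Pool.Agent.Results.MP_e2b817_gt.PlanarNonuniqueness

open MeasureTheory Pool.Agent.H53.RM

theorem result : ∃ p0 : ℝ, 0 < p0 ∧ p0 < 2 ∧ ∀ p : ℝ, p0 < p → p < 2 →
    ∃ K D : Set (EuclideanSpace ℝ (Fin 2)), IsConvexBody K ∧ IsConvexBody D ∧
      OriginSymmetric K ∧ OriginSymmetric D ∧ K ≠ D ∧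
      (∀ u : EuclideanSpace ℝ (Fin 2), ‖u‖ = 1 → radialMean p K u = radialMean p D u) ∧
      RMean p K = RMean p D :=
  final

end Pool.Agent.Results.MP_e2b817_gt.PlanarNonuniqueness
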